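import Mathlib

/-!
# MP_4e2f3e_nt, Q1: sumsets whose complement contains no long arithmetic progression

The set is `A = J ∪ R` with `J = [0, N/4]` and `R ⊆ [0, N/2]` a sparse set such that `R + R`
contains all `x ∈ (3N/4, N)` with `x ≡ -1 mod p`, for each `p` in a bounded set of primes of
size about `N^(η/2)`.
-/

namespace Pool.Agent.Results.MP_4e2f3e_nt.ShortAPComplement

open scoped Pointwise
open Finset

/-- `X ⊆ ℤ_N` contains an arithmetic progression of length `k ≤ N` with nonzero difference. -/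
def HasAP (N : ℕ) (X : Set (ZMod N)) (k : ℕ) : Prop :=
  k ≤ N ∧ ∃ a d : ZMod N, d ≠ 0 ∧ ∀ j : ℕ, j < k → a + (j : ZMod N) * d ∈ X

/-- `L(X)`: the largest length of an arithmetic progression contained in `X`. -/
noncomputable def L (N : ℕ) (X : Set (ZMod N)) : ℕ := sSup {k | HasAP N X k}

/-! ### Primes -/

theorem exists_primes (M : ℕ) (hM : M ≠ 0) (t : ℕ) :
    ∃ S : Finset ℕ, S.card = t ∧ ∀ p ∈ S, p.Prime ∧ M < p ∧ p ≤ 2 ^ t * M := by
  induction t with
  | zero => exact ⟨∅, rfl, by simp⟩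
  | succ t ih =>
    obtain ⟨S, hS, hSp⟩ := ih
    obtain ⟨p, hp, h1, h2⟩ := Nat.exists_prime_lt_and_le_two_mul (2 ^ t * M)
      (Nat.mul_ne_zero (by positivity) hM)
    have hpS : p ∉ S := fun h => by
      have := (hSp p h).2.2
      omega
    refine ⟨insert p S, by rw [Finset.card_insert_of_notMem hpS, hS], ?_⟩
    intro r hr
    have h3 : M ≤ 2 ^ t * M := Nat.le_mul_of_pos_left M (by positivity)
    rcases Finset.mem_insert.1 hr with rfl | hr
    · refine ⟨hp, by omega, ?_⟩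
      rw [pow_succ]
      calc r ≤ 2 * (2 ^ t * M) := h2
        _ = _ := by ring
    · obtain ⟨a, b, c⟩ := hSp r hr
      refine ⟨a, b, c.trans ?_⟩
      rw [pow_succ]
      nlinarith [Nat.zero_le (2 ^ t * M)]

/-! ### The construction -/

/-- the sparse part -/
def R (h K : ℕ) (S : Finset ℕ) : Finset ℕ :=
  S.biUnion (fun m => (Finset.range K).image (fun u => h - m * u) ∪
    (Finset.range K).image (fun j => h - m * (K * j)))

theorem card_R_le (h K : ℕ) (S : Finset ℕ) : (R h K S).card ≤ S.card * (2 * K) := by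
  unfold R
  refine Finset.card_biUnion_le_card_mul _ _ _ ?_
  intro m _
  refine (Finset.card_union_le _ _).trans ?_
  have h1 : ((Finset.range K).image (fun u => h - m * u)).card ≤ K :=
    Finset.card_image_le.trans (by simp)
  have h2 : ((Finset.range K).image (fun j => h - m * (K * j))).card ≤ K :=
    Finset.card_image_le.trans (by simp)
  omega

theorem R_le {h K : ℕ} {S : Finset ℕ} {x : ℕ} (hx : x ∈ R h K S) : x ≤ h := by
  unfold R at hx
  obtain ⟨m, -, hx⟩ := Finset.mem_biUnion.1 hx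
  rcases Finset.mem_union.1 hx with hx | hx
  · obtain ⟨u, -, rfl⟩ := Finset.mem_image.1 hx
    omega
  · obtain ⟨u, -, rfl⟩ := Finset.mem_image.1 hx
    omega

theorem h_mem_R {h K : ℕ} {S : Finset ℕ} (hK : 0 < K) (hS : S.Nonempty) : h ∈ R h K S := by
  obtain ⟨m, hm⟩ := hS
  refine Finset.mem_biUnion.2 ⟨m, hm, Finset.mem_union_left _ ?_⟩
  exact Finset.mem_image.2 ⟨0, Finset.mem_range.2 hK, by simp⟩

/-- `R + R` contains `2 h - m s` for the small `s`. -/
theorem mem_R_add_R {h K : ℕ} {S : Finset ℕ} {m s : ℕ} (hm : m ∈ S) (hK : 0 < K)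
    (hs : s < K * K) (hms : m * s ≤ h) :
    ∃ a ∈ R h K S, ∃ b ∈ R h K S, a + b + m * s = 2 * h := by
  have h1 : s % K + K * (s / K) = s := Nat.mod_add_div s K
  refine ⟨h - m * (s % K), ?_, h - m * (K * (s / K)), ?_, ?_⟩
  · refine Finset.mem_biUnion.2 ⟨m, hm, Finset.mem_union_left _ ?_⟩
    exact Finset.mem_image.2 ⟨s % K, Finset.mem_range.2 (Nat.mod_lt _ hK), rfl⟩
  · refine Finset.mem_biUnion.2 ⟨m, hm, Finset.mem_union_right _ ?_⟩
    exact Finset.mem_image.2 ⟨s / K, Finset.mem_range.2 (Nat.div_lt_of_lt_mul hs), rfl⟩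
  · have h2 : m * s = m * (s % K) + m * (K * (s / K)) := by
      rw [← Nat.mul_add, h1]
    omega

/-- the set, in `ℕ` -/
def A0 (N K : ℕ) (S : Finset ℕ) : Finset ℕ := Finset.range (N / 4 + 1) ∪ R (N / 2) K S

/-- the set -/
def A1 (N K : ℕ) (S : Finset ℕ) : Finset (ZMod N) := (A0 N K S).image (fun x : ℕ => (x : ZMod N))

theorem card_A1 {N K : ℕ} (hN : 0 < N) (S : Finset ℕ) : N / 4 + 1 ≤ (A1 N K S).card := by
  have h1 : ((Finset.range (N / 4 + 1)).image (fun x : ℕ => (x : ZMod N))).card = N / 4 + 1 := by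
    rw [Finset.card_image_of_injOn, Finset.card_range]
    intro a ha b hb hab
    rw [Finset.coe_range, Set.mem_Iio] at ha hb
    have := (ZMod.natCast_eq_natCast_iff' a b N).1 hab
    have ha' : a < N := by omega
    have hb' : b < N := by omega
    rwa [Nat.mod_eq_of_lt ha', Nat.mod_eq_of_lt hb'] at this
  rw [← h1]
  exact Finset.card_le_card (Finset.image_subset_image Finset.subset_union_left)

theorem card_A1_add {N K : ℕ} (S : Finset ℕ) :
    (A1 N K S + A1 N K S).card ≤ (N / 4 + N / 2 + 1) + (S.card * (2 * K)) ^ 2 := by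
  have h1 : A1 N K S + A1 N K S ⊆ (Finset.range (N / 4 + N / 2 + 1)).image (fun x : ℕ => (x : ZMod N)) ∪
      ((R (N / 2) K S) ×ˢ (R (N / 2) K S)).image (fun z => ((z.1 + z.2 : ℕ) : ZMod N)) := by
    intro x hx
    obtain ⟨a', ha', b', hb', rfl⟩ := Finset.mem_add.1 hx
    obtain ⟨a, ha, rfl⟩ := Finset.mem_image.1 ha'
    obtain ⟨b, hb, rfl⟩ := Finset.mem_image.1 hb'
    rw [← Nat.cast_add]
    have key : a + b < N / 4 + N / 2 + 1 ∨ (a ∈ R (N / 2) K S ∧ b ∈ R (N / 2) K S) := by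
      rcases Finset.mem_union.1 ha with ha | ha <;> rcases Finset.mem_union.1 hb with hb | hb
      · rw [Finset.mem_range] at ha hb
        omega
      · rw [Finset.mem_range] at ha
        have := R_le hb
        omega
      · rw [Finset.mem_range] at hb
        have := R_le ha
        omega
      · exact Or.inr ⟨ha, hb⟩
    rcases key with h | h
    · exact Finset.mem_union_left _ (Finset.mem_image.2 ⟨a + b, Finset.mem_range.2 h, rfl⟩)
    · exact Finset.mem_union_right _ (Finset.mem_image.2 ⟨(a, b), Finset.mem_product.2 h, rfl⟩)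
  refine (Finset.card_le_card h1).trans ((Finset.card_union_le _ _).trans ?_)
  refine Nat.add_le_add (Finset.card_image_le.trans (by simp)) ?_
  refine Finset.card_image_le.trans ?_
  rw [Finset.card_product, sq]
  exact Nat.mul_le_mul (card_R_le _ _ _) (card_R_le _ _ _)

theorem add_mem_A1 {N K : ℕ} {S : Finset ℕ} {a b : ℕ} (ha : a ∈ A0 N K S) (hb : b ∈ A0 N K S)
    {x : ZMod N} (hx : x = ((a + b : ℕ) : ZMod N)) : x ∈ A1 N K S + A1 N K S := by
  rw [hx, Nat.cast_add]
  exact Finset.add_mem_add (Finset.mem_image_of_mem _ ha) (Finset.mem_image_of_mem _ hb)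

/-- Residues with representative at most `N/4 + N/2` are covered. -/
theorem val_gt {N K : ℕ} (hN : 0 < N) (hK : 0 < K) {S : Finset ℕ} (hS : S.Nonempty) {x : ZMod N}
    (hx : x ∉ A1 N K S + A1 N K S) : N / 4 + N / 2 < x.val := by
  have : NeZero N := ⟨by omega⟩
  by_contra hcon
  apply hx
  have e : x = ((x.val : ℕ) : ZMod N) := (ZMod.natCast_zmod_val x).symm
  rcases Nat.lt_or_ge x.val (N / 2) with h | h
  · refine add_mem_A1 (a := min x.val (N / 4)) (b := x.val - min x.val (N / 4)) ?_ ?_ ?_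
    · exact Finset.mem_union_left _ (Finset.mem_range.2 (by omega))
    · exact Finset.mem_union_left _ (Finset.mem_range.2 (by omega))
    · rw [Nat.add_sub_cancel' (min_le_left _ _)]
      exact e
  · refine add_mem_A1 (a := N / 2) (b := x.val - N / 2) ?_ ?_ ?_
    · exact Finset.mem_union_right _ (h_mem_R hK hS)
    · exact Finset.mem_union_left _ (Finset.mem_range.2 (by omega))
    · rw [Nat.add_sub_cancel' h]
      exact e

theorem no_AP {N K M : ℕ} (hodd : N % 2 = 1) (hN : 0 < N) (hK : 0 < K) (hKM : N < M * (K * K))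
    {S : Finset ℕ} (hSM : ∀ p ∈ S, p.Prime ∧ M < p) (hprod : N ≤ ∏ p ∈ S, p) {k : ℕ}
    (hk : ∀ p ∈ S, p < k) (hS : S.Nonempty) :
    ¬ HasAP N (((A1 N K S + A1 N K S : Finset (ZMod N)) : Set (ZMod N))ᶜ) k := by
  have : NeZero N := ⟨by omega⟩
  rintro ⟨-, a, d, hd, hX⟩
  have hX' : ∀ j : ℕ, j < k → N / 4 + N / 2 < (a + (j : ZMod N) * d).val := by
    intro j hj
    exact val_gt hN hK hS (fun h => hX j hj h)
  have hlt : ∀ j : ℕ, (a + (j : ZMod N) * d).val < N := fun j => ZMod.val_lt _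
  set y : ℕ → ℤ := fun j => ((a + (j : ZMod N) * d).val : ℤ) with hy
  have hycast : ∀ j : ℕ, ((y j : ℤ) : ZMod N) = a + (j : ZMod N) * d := by
    intro j
    simp only [hy]
    rw [Int.cast_natCast, ZMod.natCast_zmod_val]
  obtain ⟨p0, hp0⟩ := hS
  have hk2 : 2 < k := lt_of_le_of_lt (hSM p0 hp0).1.two_le (hk p0 hp0)
  set δ : ℤ := y 1 - y 0 with hδ
  have hδcast : ((δ : ℤ) : ZMod N) = d := by
    rw [hδ, Int.cast_sub, hycast, hycast]
    push_cast
    ring
  have hδ0 : δ ≠ 0 := by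
    intro h
    rw [h] at hδcast
    apply hd
    rw [← hδcast]
    simp
  have hb : ∀ i j : ℕ, i < k → j < k → |y i - y j| < N / 2 := by
    intro i j hi hj
    have h1 := hX' i hi
    have h2 := hX' j hj
    have h3 := hlt i
    have h4 := hlt j
    simp only [hy]
    rw [abs_lt]
    constructor <;> omega
  have hstep : ∀ j : ℕ, j + 1 < k → y (j + 1) = y j + δ := by
    intro j hj
    have h1 : (((y (j + 1) - y j - δ : ℤ)) : ZMod N) = 0 := by
      rw [Int.cast_sub, Int.cast_sub, hycast, hycast, hδcast]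
      push_cast
      ring
    rw [ZMod.intCast_zmod_eq_zero_iff_dvd] at h1
    have h2 := hb (j + 1) j hj (by omega)
    have h3 := hb 1 0 (by omega) (by omega)
    have h4 : |y (j + 1) - y j - δ| < N := by
      rw [abs_lt] at h2 h3 ⊢
      constructor <;> omega
    have h5 := Int.eq_zero_of_abs_lt_dvd h1 h4
    linarith
  have hyj : ∀ j : ℕ, j < k → y j = y 0 + j * δ := by
    intro j
    induction j with
    | zero => intro _; simp
    | succ j ih =>
      intro hj
      rw [hstep j hj, ih (by omega)]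
      push_cast
      ring
  -- a prime not dividing δ
  obtain ⟨p, hpS, hpδ⟩ : ∃ p ∈ S, ¬ (p ∣ δ.natAbs) := by
    by_contra hcon
    push Not at hcon
    have h1 : ∏ p ∈ S, p ∣ δ.natAbs :=
      Finset.prod_primes_dvd _ (fun p hp => (hSM p hp).1.prime) hcon
    have h2 := Nat.le_of_dvd (Int.natAbs_pos.2 hδ0) h1
    have h3 := hb 1 0 (by omega) (by omega)
    rw [abs_lt] at h3
    omega
  have hp := (hSM p hpS).1
  have : Fact p.Prime := ⟨hp⟩
  have hδp : ((δ : ℤ) : ZMod p) ≠ 0 := by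
    intro h
    rw [ZMod.intCast_zmod_eq_zero_iff_dvd] at h
    exact hpδ (Int.natCast_dvd.1 h)
  -- the term of the progression in the right residue class
  set r : ZMod p := ((2 * (N / 2 : ℕ) : ℤ) - y 0 : ℤ) * (((δ : ℤ) : ZMod p))⁻¹ with hr
  have hrv : r.val < p := ZMod.val_lt r
  have hj : r.val < k := hrv.trans (hk p hpS)
  have h1 : (((2 * (N / 2 : ℕ) : ℤ) - y r.val : ℤ) : ZMod p) = 0 := by
    rw [hyj _ hj]
    push_cast
    rw [ZMod.natCast_zmod_val, hr]
    push_cast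
    field_simp
    ring
  rw [ZMod.intCast_zmod_eq_zero_iff_dvd] at h1
  obtain ⟨s, hs⟩ := h1
  have h2 := hX' r.val hj
  have h3 := hlt r.val
  have hyr : y r.val = ((a + (r.val : ZMod N) * d).val : ℤ) := rfl
  set z := (a + (r.val : ZMod N) * d).val with hz
  rw [hyr] at hs
  have hs0 : 0 ≤ s := by
    by_contra hneg
    have hp1 : (0 : ℤ) < p := by exact_mod_cast hp.pos
    have : (p : ℤ) * s < 0 := mul_neg_of_pos_of_neg hp1 (by omega)
    omega
  obtain ⟨s', rfl⟩ := Int.eq_ofNat_of_zero_le hs0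
  have hs' : z + p * s' = 2 * (N / 2) := by
    have : (z : ℤ) + p * s' = 2 * ((N / 2 : ℕ) : ℤ) := by linarith
    exact_mod_cast this
  have hps : p * s' ≤ N / 2 := by omega
  have hsK : s' < K * K := by
    by_contra hcon
    have h4 : M * (K * K) ≤ p * s' := Nat.mul_le_mul (hSM p hpS).2.le (by omega)
    omega
  obtain ⟨b, hb, c, hc, hbc⟩ := mem_R_add_R hpS hK hsK hps
  apply hX r.val hj
  refine add_mem_A1 (Finset.mem_union_right _ hb) (Finset.mem_union_right _ hc) ?_
  have : b + c = z := by omega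
  rw [this, hz, ZMod.natCast_zmod_val]

theorem L_le {N : ℕ} (X : Set (ZMod N)) (B : ℕ) (h : ∀ k, B < k → ¬ HasAP N X k) : L N X ≤ B := by
  unfold L
  rcases Set.eq_empty_or_nonempty {k | HasAP N X k} with h0 | h0
  · rw [h0]
    simp
  · refine csSup_le h0 ?_
    intro k hk
    by_contra hcon
    exact h k (by omega) hk

/-- For all `η, δ > 0` and all large primes `N` there is `A ⊆ ℤ_N` with `|A| > N/4`,
`|A + A| ≤ (3/4 + δ) N` and `L(ℤ_N \ (A + A)) ≤ N^η`. -/
theorem result :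
    ∀ η δ : ℝ, 0 < η → 0 < δ → ∃ N₀ : ℕ, ∀ N : ℕ, N₀ ≤ N → N.Prime →
      ∃ A : Finset (ZMod N), (N : ℝ) / 4 < (A.card : ℝ) ∧
        ((A + A).card : ℝ) ≤ (3 / 4 + δ) * (N : ℝ) ∧
        (L N (((A + A : Finset (ZMod N)) : Set (ZMod N))ᶜ) : ℝ) ≤ (N : ℝ) ^ η := by
  intro η₀ δ hη₀ hδ
  set η : ℝ := min η₀ 1 with hη
  have hη0 : 0 < η := lt_min hη₀ one_pos
  have hη1 : η ≤ 1 := min_le_right _ _
  set t : ℕ := ⌈2 / η⌉₊ with ht
  have ht1 : 2 / η ≤ t := Nat.le_ceil _
  set T : ℝ := max (max (2 ^ (t + 1)) (32 * (t : ℝ) ^ 2 / δ)) (2 / δ) with hT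
  obtain ⟨N₀, hN₀⟩ := exists_nat_gt (T ^ (2 / η))
  refine ⟨N₀ + 3, ?_⟩
  intro N hN hNp
  have hTpos : 0 < T := lt_of_lt_of_le (by positivity) (le_max_right _ _)
  have hNpos : (0 : ℝ) < N := by exact_mod_cast hNp.pos
  have hN1 : (1 : ℝ) ≤ N := by exact_mod_cast hNp.one_lt.le
  have hNT : T ≤ (N : ℝ) ^ (η / 2) := by
    have e2 : T ^ (2 / η) ≤ (N : ℝ) := by
      refine hN₀.le.trans ?_
      have : N₀ ≤ N := by omega
      exact_mod_cast this
    have e3 := Real.rpow_le_rpow (by positivity) e2 (by positivity : 0 ≤ η / 2)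
    rw [← Real.rpow_mul hTpos.le] at e3
    have e4 : 2 / η * (η / 2) = 1 := by field_simp
    rwa [e4, Real.rpow_one] at e3
  set x : ℝ := (N : ℝ) ^ (η / 2) with hx
  have hx1 : (2 : ℝ) ^ (t + 1) ≤ x := le_trans ((le_max_left _ _).trans (le_max_left _ _)) hNT
  have hx2 : 32 * (t : ℝ) ^ 2 / δ ≤ x := le_trans ((le_max_right _ _).trans (le_max_left _ _)) hNT
  have hx3 : 2 / δ ≤ x := le_trans (le_max_right _ _) hNT
  have hx0 : 1 ≤ x := le_trans (one_le_pow₀ (by norm_num)) hx1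
  have hxx : x * x = (N : ℝ) ^ η := by
    rw [hx, ← Real.rpow_add hNpos]
    congr 1
    ring
  have hxN : (N : ℝ) ^ η ≤ N := by
    calc (N : ℝ) ^ η ≤ (N : ℝ) ^ (1 : ℝ) := Real.rpow_le_rpow_of_exponent_le hN1 hη1
      _ = N := Real.rpow_one _
  set M : ℕ := ⌈x⌉₊ with hM
  have hM1 : x ≤ M := Nat.le_ceil _
  have hM2 : (M : ℝ) ≤ 2 * x := by
    have := Nat.ceil_lt_add_one (by linarith : 0 ≤ x)
    linarith
  have hMpos : 0 < M := by
    have : (0 : ℝ) < M := by linarith
    exact_mod_cast this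
  -- conditions
  have c1 : N ≤ M ^ t := by
    have e1 : (N : ℝ) ≤ (M : ℝ) ^ t := by
      calc (N : ℝ) = (N : ℝ) ^ (1 : ℝ) := (Real.rpow_one _).symm
        _ ≤ (N : ℝ) ^ (η / 2 * t) := by
            apply Real.rpow_le_rpow_of_exponent_le hN1
            rw [div_le_iff₀ hη0] at ht1
            linarith
        _ = x ^ t := by rw [Real.rpow_mul hNpos.le, Real.rpow_natCast]
        _ ≤ (M : ℝ) ^ t := pow_le_pow_left₀ (by linarith) hM1 t
    exact_mod_cast e1
  have c2 : ((2 ^ t * M : ℕ) : ℝ) ≤ (N : ℝ) ^ η := by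
    rw [← hxx]
    push_cast
    calc (2 : ℝ) ^ t * M ≤ 2 ^ t * (2 * x) := by
          apply mul_le_mul_of_nonneg_left hM2 (by positivity)
      _ = 2 ^ (t + 1) * x := by ring
      _ ≤ x * x := by apply mul_le_mul_of_nonneg_right hx1 (by linarith)
  have hMN : M ≤ N := by
    have e1 : 2 ^ t * M ≤ N := by exact_mod_cast c2.trans hxN
    have e2 : M ≤ 2 ^ t * M := Nat.le_mul_of_pos_left M (by positivity)
    omega
  set K : ℕ := Nat.sqrt (N / M) + 1 with hK
  have hK0 : 0 < K := Nat.succ_pos _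
  have c3 : N < M * (K * K) := by
    have e1 : N / M < K * K := Nat.lt_succ_sqrt _
    rw [mul_comm]
    exact (Nat.div_lt_iff_lt_mul hMpos).1 e1
  have c4 : K * K * M ≤ 4 * N := by
    have e0 : 0 < N / M := Nat.div_pos hMN hMpos
    have e1 : 0 < Nat.sqrt (N / M) := Nat.sqrt_pos.2 e0
    have e2 : Nat.sqrt (N / M) * Nat.sqrt (N / M) ≤ N / M := Nat.sqrt_le _
    have e3 : K * K ≤ 4 * (N / M) := by
      have : K ≤ 2 * Nat.sqrt (N / M) := by omega
      nlinarith
    calc K * K * M ≤ 4 * (N / M) * M := Nat.mul_le_mul_right M e3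
      _ = 4 * (N / M * M) := by ring
      _ ≤ 4 * N := Nat.mul_le_mul_left 4 (Nat.div_mul_le_self N M)
  have hodd : N % 2 = 1 := by
    rcases hNp.eq_two_or_odd with h | h
    · omega
    · exact h
  have ht0 : 0 < t := by
    have : (0 : ℝ) < t := lt_of_lt_of_le (by positivity) ht1
    exact_mod_cast this
  obtain ⟨S, hSc, hS⟩ := exists_primes M hMpos.ne' t
  have hSne : S.Nonempty := Finset.card_pos.1 (by omega)
  refine ⟨A1 N K S, ?_, ?_, ?_⟩
  · have e1 := card_A1 (K := K) hNp.pos S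
    have e2 : N < 4 * (N / 4 + 1) := by omega
    have e3 : (N : ℝ) < 4 * ((A1 N K S).card : ℝ) := by
      have : N < 4 * (A1 N K S).card := by omega
      exact_mod_cast this
    linarith
  · have e1 := card_A1_add (N := N) (K := K) S
    rw [hSc] at e1
    have e2 : 4 * (N / 4 + N / 2 + 1) ≤ 3 * N + 4 := by omega
    have e3 : ((A1 N K S + A1 N K S).card : ℝ) ≤
        ((N / 4 + N / 2 + 1 : ℕ) : ℝ) + ((t : ℝ) * (2 * K)) ^ 2 := by exact_mod_cast e1
    have e4 : (4 : ℝ) * ((N / 4 + N / 2 + 1 : ℕ) : ℝ) ≤ 3 * N + 4 := by exact_mod_cast e2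
    have e5 : (K : ℝ) * K * M ≤ 4 * N := by exact_mod_cast c4
    have e6 : 1 ≤ δ * N / 2 := by
      rw [div_le_iff₀ hδ] at hx3
      have : x ≤ N := by nlinarith
      nlinarith
    have e7 : ((t : ℝ) * (2 * K)) ^ 2 ≤ δ * N / 2 := by
      rw [div_le_iff₀ hδ] at hx2
      have e8 : 32 * (t : ℝ) ^ 2 ≤ M * δ := by nlinarith
      have e9 : (0 : ℝ) ≤ (K : ℝ) * K := by positivity
      have e10 : 32 * (t : ℝ) ^ 2 * ((K : ℝ) * K) ≤ δ * (4 * N) := by
        calc 32 * (t : ℝ) ^ 2 * ((K : ℝ) * K) ≤ (M * δ) * ((K : ℝ) * K) :=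
              mul_le_mul_of_nonneg_right e8 e9
          _ = δ * ((K : ℝ) * K * M) := by ring
          _ ≤ δ * (4 * N) := mul_le_mul_of_nonneg_left e5 hδ.le
      nlinarith
    linarith
  · have e1 : L N (((A1 N K S + A1 N K S : Finset (ZMod N)) : Set (ZMod N))ᶜ) ≤ 2 ^ t * M := by
      apply L_le
      intro k hk
      refine no_AP hodd hNp.pos hK0 c3 (fun p hp => ⟨(hS p hp).1, (hS p hp).2.1⟩) ?_ ?_ hSne
      · refine c1.trans ?_
        rw [← hSc]
        exact Finset.pow_card_le_prod (s := S) (f := fun p => p) (n := M) (fun p hp => (hS p hp).2.1.le)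
      · intro p hp
        exact lt_of_le_of_lt (hS p hp).2.2 hk
    have e2 : (L N (((A1 N K S + A1 N K S : Finset (ZMod N)) : Set (ZMod N))ᶜ) : ℝ) ≤
        ((2 ^ t * M : ℕ) : ℝ) := by exact_mod_cast e1
    refine e2.trans (c2.trans ?_)
    exact Real.rpow_le_rpow_of_exponent_le hN1 (min_le_left _ _)

end Pool.Agent.Results.MP_4e2f3e_nt.ShortAPComplement
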